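import Pool.Agent.H27.SW.Stm
import Pool.Graph.R_pool_sql_team_seeded_63374d34.N879.PU.Telu
import Pool.Graph.R_pool_sql_team_seeded_63374d34.N879.PU.Asm2

set_option autoImplicit false

/-!
Project SW (helper27), job SW-TE: replacement of all the factors by the model. Author: helper29.
-/

namespace Pool.Agent.H29.SW

open Complex Filter Topology MeasureTheory Set
open Pool.Agent.TH612.CF
open Pool.Agent.TH612.GS
open Pool.Agent.N879.PZ (Wb)
open Pool.Agent.N879.PU (fs fs_norm fs_cont card_ii t_TELU)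
open Pool.Agent.H27.SW

noncomputable section

variable {k : ℕ}

/-- the kernel for the conjugated factors -/
lemma ker_fs {K T H U : ℝ} {N : ℕ} (i : Fin k ⊕ Fin k)
    (h : ∀ F : ℝ → ℂ, Wb T (T + H) F →
      ∫ c in (0 : ℝ)..U, ‖∫ t in T..(T + H), F t * (z (t + c) - GN N (t + c))‖ ^ 2 ≤
        K * ∫ t in T..(T + H), ‖F t‖ ^ 2)
    (F : ℝ → ℂ) (hF : Wb T (T + H) F) :
    ∫ c in (0 : ℝ)..U, ‖∫ t in T..(T + H), F t * (fs z i (t + c) - fs (GN N) i (t + c))‖ ^ 2 ≤
      K * ∫ t in T..(T + H), ‖F t‖ ^ 2 := by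
  cases i with
  | inl j => exact h F hF
  | inr j =>
    obtain ⟨hm, M, hM⟩ := hF
    have hF' : Wb T (T + H) fun t => (starRingEnd ℂ) (F t) :=
      ⟨Complex.continuous_conj.measurable.comp hm, M, fun t ht => by rw [RCLike.norm_conj]; exact hM t ht⟩
    have h1 := h _ hF'
    have e1 : ∀ c : ℝ, ‖∫ t in T..(T + H), F t * (fs z (Sum.inr j) (t + c) - fs (GN N) (Sum.inr j) (t + c))‖ ^ 2 =
        ‖∫ t in T..(T + H), (starRingEnd ℂ) (F t) * (z (t + c) - GN N (t + c))‖ ^ 2 := by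
      intro c
      have e2 : ∫ t in T..(T + H), F t * (fs z (Sum.inr j) (t + c) - fs (GN N) (Sum.inr j) (t + c)) =
          (starRingEnd ℂ) (∫ t in T..(T + H), (starRingEnd ℂ) (F t) * (z (t + c) - GN N (t + c))) := by
        rw [← Pool.Agent.TH612.GS.int_conj]
        refine intervalIntegral.integral_congr fun t _ => ?_
        simp only [map_mul, map_sub, Complex.conj_conj]
        rfl
      rw [e2, RCLike.norm_conj]
    simp only [e1]
    refine h1.trans (le_of_eq ?_)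
    simp only [RCLike.norm_conj]

theorem te (hXL : S_XL) (hOPL : S_OPL) (hVB : S_VB) : S_TE := by
  intro k ε hk hε hε4
  obtain ⟨C1, T1, hC1, hT1, hopl⟩ := hOPL ε hε hε4
  obtain ⟨C2, B2, hC2, hvb⟩ := hVB
  refine ⟨4 ^ (2 * k) * C1 * C2 ^ (2 * k - 1), T1, 2 + B2 * (2 * k - 1), by positivity, hT1, ?_⟩
  intro T H U N hT hH hHT hU hUT hN hNT
  have hT3 : 3 ≤ T := hT1.trans hT
  have hT0 : 0 < T := by linarith
  have hT1' : 1 ≤ T := by linarith
  have hlog : 0 < Real.log T := Real.log_pos (by linarith)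
  have hU0 : 0 < U := lt_of_lt_of_le (Real.rpow_pos_of_pos hT0 _) hU
  have hTH : T ^ (1 / 16 : ℝ) ≤ T := by
    calc T ^ (1 / 16 : ℝ) ≤ T ^ (1 : ℝ) := Real.rpow_le_rpow_of_exponent_le hT1' (by norm_num)
      _ = T := Real.rpow_one T
  have hHT' : H ≤ T := hHT.trans hTH
  have hU2 : T ^ (1 / 2 : ℝ) ≤ U :=
    (Real.rpow_le_rpow_of_exponent_le hT1' (by linarith)).trans hU
  have hN2 : (N : ℝ) ≤ T ^ (1 / 2 : ℝ) :=
    hNT.trans (Real.rpow_le_rpow_of_exponent_le hT1' (by norm_num))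
  have hN0 : (0 : ℝ) < N := by exact_mod_cast hN
  have hGc : Continuous (GN N) := by
    unfold GN
    exact (PN_cont N).add (hXL.1.mul (Complex.continuous_conj.comp (PN_cont N)))
  have hK : 0 ≤ C1 * Real.log T ^ 2 * (U * (1 + H / N)) := by positivity
  have hW : 0 ≤ C2 * U * Real.log T ^ B2 := by positivity
  have hmain := t_TELU (Fin k ⊕ Fin k) T (T + H) U (C1 * Real.log T ^ 2 * (U * (1 + H / N)))
    (C2 * U * Real.log T ^ B2) (Icc T (T + H)) (fun i => fs z i) (fun i => fs (GN N) i)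
    (by linarith) hU0 hK hW measurableSet_Icc (fun i => fs_cont z_cont i) (fun i => fs_cont hGc i)
    (fun i F hF => ker_fs i (fun F hF => hopl T H U N F hT hH hHT hU hUT hN hNT hF) F hF)
    (fun i t _ ht => by
      simp only [fs_norm]
      exact (hvb T U t N hT3 hU2 hUT ht.1 (by linarith [ht.2]) hN hN2).1)
    (fun i t _ ht => by
      simp only [fs_norm]
      exact (hvb T U t N hT3 hU2 hUT ht.1 (by linarith [ht.2]) hN hN2).2)
  rw [card_ii, inter_self] at hmain
  have e1 : ∀ γ : Fin k ⊕ Fin k → ℝ, (∫ t in Icc T (T + H), (∏ i, fs z i (t + γ i) -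
      ∏ i, fs (GN N) i (t + γ i))) = ∫ t in T..(T + H), (∏ i, fs z i (t + γ i) -
      ∏ i, fs (GN N) i (t + γ i)) := by
    intro γ
    rw [integral_Icc_eq_integral_Ioc, ← intervalIntegral.integral_of_le (by linarith : T ≤ T + H)]
  simp only [e1] at hmain
  refine hmain.trans (ENNReal.ofReal_le_ofReal (le_of_eq ?_))
  obtain ⟨m, hm⟩ : ∃ m : ℕ, 2 * k = m + 1 := ⟨2 * k - 1, by omega⟩
  rw [hm, Nat.add_sub_cancel, mul_pow, mul_pow, ← pow_mul, pow_add (Real.log T) 2, pow_succ U m]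
  ring

end

end Pool.Agent.H29.SW
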